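import Pool.Agent.BNC.F3
import Pool.Agent.BNC.J3
import Pool.Agent.BNC.Z1

/-!
# Lipschitz maps of the James tree space onto `ℓ_1`

For every separable Banach space `Y`, for instance `Y = ℓ_1`, there is a 1-Lipschitz map `f` of
the James tree space `JT` onto `Y` such that every ball of radius `R` of `JT` contains a point
`x'` with `f (B(x', t)) ⊇ B(f x', t / 1600)` for all `0 < t ≤ R`.
-/

namespace Pool.Agent.Results.MP_df3c4e_an.LargeCentres

open Pool.Agent.BNC

/-- A 1-Lipschitz surjection `f : X → Y` such that every closed ball of radius `R > 0` of `X`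
contains a point `x'` with `f (B(x', t)) ⊇ B(f x', t / 1600)` for all `0 < t ≤ R`. -/
def Map (X Y : Type*) [NormedAddCommGroup X] [NormedAddCommGroup Y] (f : X → Y) : Prop :=
  LipschitzWith 1 f ∧ Function.Surjective f ∧
    ∀ (x : X) (R : ℝ), 0 < R → ∃ x' ∈ Metric.closedBall x R, ∀ t : ℝ, 0 < t → t ≤ R →
      Metric.closedBall (f x') (t / 1600) ⊆ f '' Metric.closedBall x' t

theorem result.{u} :
    (∃ f : JT → lp (fun _ : ℕ => ℝ) 1, Map JT (lp (fun _ : ℕ => ℝ) 1) f) ∧
    ∀ (Y : Type u) [NormedAddCommGroup Y] [NormedSpace ℝ Y] [CompleteSpace Y]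
      [TopologicalSpace.SeparableSpace Y], ∃ f : JT → Y, Map JT Y f := by
  constructor
  · have := separable_lp1
    obtain ⟨f, h1, h2, h3⟩ := bnc_sys (Y := lp (fun _ : ℕ => ℝ) 1) sysFin0
    exact ⟨f, h1, h2, h3⟩
  · intro Y _ _ _ _
    obtain ⟨f, h1, h2, h3⟩ := bnc_sys (Y := Y) sysFin0
    exact ⟨f, h1, h2, h3⟩

end Pool.Agent.Results.MP_df3c4e_an.LargeCentres
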